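import Pool.Agent.Lib.MP_583f0b_co.Defs
import Pool.Agent.Lib.MP_583f0b_co.Main

/-!
Negative answer to the question of MP_583f0b_co, for every infinite cardinality.
-/

universe u

namespace Pool.Agent.Results.MP_583f0b_co.NoSMC

open Pool.Agent.MP583f0b

/-- For every infinite cardinal `κ` (in particular for `κ = ℵ_n`, for every `n < ω`) there is a
poset of cardinality exactly `κ` without infinite antichains in which no chain is strongly
maximal; in fact every chain `C` is beaten by a chain `D` with `C \ D` and `D \ C` finite and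
`|C \ D| < |D \ C|`. -/
theorem result : ∀ κ : Cardinal.{u}, Cardinal.aleph0 ≤ κ →
    ∃ (P : Type u) (_ : PartialOrder P), Cardinal.mk P = κ ∧ FAC P ∧
      (∀ C : Set P, IsChain (· ≤ ·) C → ∃ D : Set P, IsChain (· ≤ ·) D ∧
        (C \ D).Finite ∧ (D \ C).Finite ∧
        Cardinal.mk (C \ D : Set P) < Cardinal.mk (D \ C : Set P)) ∧
      ¬ ∃ C : Set P, IsSMC C :=
  fun κ hκ => final κ hκ

end Pool.Agent.Results.MP_583f0b_co.NoSMC
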